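import Pool.Agent.MP_f9a021_co.BD.M2

namespace Pool.Agent.Results.MP_f9a021_co.BoundedIndex

open Pool.Agent.MP_f9a021_co Pool.Agent.MP_f9a021_co.BD

theorem result (m : ℕ) (hm : 2 ≤ m) :
    ∃ C : ℕ, ∀ (G : Type) [AddCommGroup G] [Fintype G],
      Fintype.card G = m * AddMonoid.exponent G → C ≤ AddMonoid.exponent G →
      AddMonoid.exponent G + max (m - 1) (coverT G m) ≤ tauHat G (AddMonoid.exponent G) ∧
      tauHat G (AddMonoid.exponent G) ≤ AddMonoid.exponent G + max m (coverT G m) ∧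
      (∀ d : ℕ, d ∣ AddMonoid.exponent G → m < d → 4 * m * d ≤ AddMonoid.exponent G →
        (d - 2) / (d / m) ≤ coverT G m) ∧
      (m ≤ coverT G m → ∃ d : ℕ, d ∣ m * AddMonoid.exponent G ∧ m < d ∧
        4 * m * d ≤ AddMonoid.exponent G ∧ 2 ≤ d % m ∧ coverT G m ≤ (d - 2) / (d / m)) := by
  simp only [coverT_eq]
  exact main_Fin R_pf TOR_pf (CORE_pf (RK_pf STR_pf) REP_pf DAV_pf ROB_pf (BOR_pf REP_pf))
    COV_pf LOW_pf CYC_pf PRED_pf m hm

end Pool.Agent.Results.MP_f9a021_co.BoundedIndex
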