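import Pool.Agent.MP_f9a021_co.EZ5

namespace Pool.Agent.Results.MP_f9a021_co.EGZAsymptotic

open Pool.Agent.MP_f9a021_co

theorem result (r : ℕ) (ε : ℝ) (hε : 0 < ε) : ∃ P : ℕ, ∀ p : ℕ, p.Prime → P ≤ p →
    egz (Fin r → ZMod p) p ≤ tauHat (Fin (r + 1) → ZMod p) p + 1 ∧
    ((tauHat (Fin (r + 1) → ZMod p) p + 1 : ℕ) : ℝ) ≤ (1 + ε) * egz (Fin r → ZMod p) p :=
  EZ.main r ε hε

end Pool.Agent.Results.MP_f9a021_co.EGZAsymptotic
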