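import Pool.Agent.Mg.Ff9a021.G0be2c2

namespace Pool.Agent.Results.MP_f9a021_co.GaoThangadurai

open Pool.Agent.MP_f9a021_co

theorem result (k : ℕ) (hk : 2000 ^ 40 ≤ k) :
    tauHat (ZMod k × ZMod k) k = if Even k then 2 * k else 2 * k - 2 :=
  GT.gt_main hk

end Pool.Agent.Results.MP_f9a021_co.GaoThangadurai
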