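import Pool.Agent.MP_f9a021_co.EXmain

namespace Pool.Agent.Results.MP_f9a021_co.RankThree

open Pool.Agent.MP_f9a021_co

theorem result : ∃ P : ℕ, ∀ p : ℕ, p.Prime → P ≤ p → tauHat (Fin 3 → ZMod p) p = 4 * p - 4 :=
  EX.exact3

end Pool.Agent.Results.MP_f9a021_co.RankThree
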